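import Mathlib
import Pool.Agent.Helper429.PT.Gen

/-!
# Derived length of the groups of the variety
-/

set_option autoImplicit false

namespace Pool.Agent.H452.VPP

open Pool.Agent.Helper429.PT
open scoped commutatorElement
open Pool.Agent.Helper429.LF2 (WG WT GN GN_wrd GN_not_wrd GN_series wrd)

universe u

/-- the elements of the `k`-th derived subgroup are values of words in the `k`-th derived
subgroup of the free group -/
lemma exists_word (G : Type u) [Group G] (k : ℕ) : ∀ g ∈ derivedSeries G k,
    ∃ (φ : FF →* G) (w : FF), w ∈ derivedSeries FF k ∧ φ w = g := by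
  induction k with
  | zero =>
    intro g _
    exact ⟨FreeGroup.lift (fun _ => g), FreeGroup.of 0, by simp, by simp⟩
  | succ k ih =>
    -- separate the variables
    let e : FF →* FF := FreeGroup.lift (fun i => FreeGroup.of (2 * i))
    let o : FF →* FF := FreeGroup.lift (fun i => FreeGroup.of (2 * i + 1))
    have hcomb : ∀ φ ψ : FF →* G, ∃ θ : FF →* G, θ.comp e = φ ∧ θ.comp o = ψ := by
      intro φ ψ
      refine ⟨FreeGroup.lift (fun i => if i % 2 = 0 then φ (FreeGroup.of (i / 2)) else
        ψ (FreeGroup.of (i / 2))), ?_, ?_⟩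
      · ext1 i
        simp [e]
      · ext1 i
        have h1 : (2 * i + 1) % 2 = 1 := by omega
        have h2 : (2 * i + 1) / 2 = i := by omega
        simp [o, h1, h2]
    have he : ∀ j (w : FF), w ∈ derivedSeries FF j → e w ∈ derivedSeries FF j := fun j w hw =>
      map_derivedSeries_le_derivedSeries e j (Subgroup.mem_map_of_mem e hw)
    have ho : ∀ j (w : FF), w ∈ derivedSeries FF j → o w ∈ derivedSeries FF j := fun j w hw =>
      map_derivedSeries_le_derivedSeries o j (Subgroup.mem_map_of_mem o hw)
    let S : Subgroup G :=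
      { carrier := {g | ∃ (φ : FF →* G) (w : FF), w ∈ derivedSeries FF (k + 1) ∧ φ w = g}
        one_mem' := ⟨1, 1, Subgroup.one_mem _, rfl⟩
        mul_mem' := by
          rintro _ _ ⟨φ, w, hw, rfl⟩ ⟨ψ, w', hw', rfl⟩
          obtain ⟨θ, h1, h2⟩ := hcomb φ ψ
          refine ⟨θ, e w * o w', Subgroup.mul_mem _ (he _ _ hw) (ho _ _ hw'), ?_⟩
          rw [map_mul, ← MonoidHom.comp_apply, ← MonoidHom.comp_apply, h1, h2]
        inv_mem' := by
          rintro _ ⟨φ, w, hw, rfl⟩
          exact ⟨φ, w⁻¹, Subgroup.inv_mem _ hw, map_inv φ w⟩ }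
    have hle : derivedSeries G (k + 1) ≤ S := by
      rw [derivedSeries_succ, Subgroup.commutator_le]
      intro g1 h1 g2 h2
      obtain ⟨φ, w, hw, rfl⟩ := ih g1 h1
      obtain ⟨ψ, w', hw', rfl⟩ := ih g2 h2
      obtain ⟨θ, h3, h4⟩ := hcomb φ ψ
      refine ⟨θ, ⁅e w, o w'⁆, ?_, ?_⟩
      · rw [derivedSeries_succ]
        exact Subgroup.commutator_mem_commutator (he _ _ hw) (ho _ _ hw')
      · rw [map_commutatorElement, ← MonoidHom.comp_apply, ← MonoidHom.comp_apply, h3, h4]
    intro g hg
    exact hle hg

/-- the derived series below a normal subgroup -/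
lemma derived_le {G : Type} [Group G] (N : Subgroup G) {b : ℕ} (h : derivedSeries G b ≤ N)
    (m : ℕ) : derivedSeries G (b + m) ≤ (derivedSeries N m).map N.subtype := by
  induction m with
  | zero =>
    rw [derivedSeries_zero, ← MonoidHom.range_eq_map, Subgroup.range_subtype]
    exact h
  | succ m ih =>
    rw [← add_assoc, derivedSeries_succ, derivedSeries_succ, Subgroup.map_commutator]
    exact Subgroup.commutator_mono ih ih

/-- derived length of wreath products -/
lemma wr_derived {D Q : Type} [Group D] [Group Q] {a b : ℕ} (hD : derivedSeries D a = ⊥)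
    (hQ : derivedSeries Q b = ⊥) : derivedSeries (RegularWreathProduct D Q) (b + a) = ⊥ := by
  have h1 : derivedSeries (RegularWreathProduct D Q) b ≤ Bs D Q := by
    intro x hx
    have h2 := map_derivedSeries_le_derivedSeries
      (RegularWreathProduct.rightHom : RegularWreathProduct D Q →* Q) b
      (Subgroup.mem_map_of_mem _ hx)
    rw [hQ] at h2
    exact h2
  have h3 := derived_le (Bs D Q) h1 a
  have h4 : derivedSeries (Bs D Q) a = ⊥ := by
    rw [eq_bot_iff]
    intro x hx
    rw [Subgroup.mem_bot]
    have h5 : ∀ k, evb k x = 1 := by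
      intro k
      have h6 := map_derivedSeries_le_derivedSeries (evb (D := D) k) a
        (Subgroup.mem_map_of_mem _ hx)
      rw [hD] at h6
      exact h6
    exact Subtype.ext (base_ext x.2 rfl fun k => h5 k)
  rw [h4, Subgroup.map_bot] at h3
  exact eq_bot_iff.mpr h3

lemma comm_derived {A : Type} [CommGroup A] : derivedSeries A 1 = ⊥ := by
  rw [derivedSeries_one, commutator_def, Subgroup.commutator_eq_bot_iff_le_centralizer]
  intro x _
  rw [Subgroup.mem_centralizer_iff]
  intro y _
  exact mul_comm _ _

/-- the test groups are soluble of derived length at most three -/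
lemma GN_derived (p n : ℕ) [Fact p.Prime] : derivedSeries (GN p n) 3 = ⊥ := by
  obtain ⟨G₁, G₂, _, _, _, h2, _, h4, _, h6, _⟩ := GN_series (p := p) n
  have e1 : derivedSeries (GN p n) 1 ≤ G₂ := by
    rw [derivedSeries_succ, derivedSeries_zero, Subgroup.commutator_le]
    intro x _ y _
    exact h6 x y
  have e2 : derivedSeries (GN p n) 2 ≤ G₁ := by
    rw [derivedSeries_succ, Subgroup.commutator_le]
    intro x hx y hy
    exact h4 x (e1 hx) y (e1 hy)
  rw [eq_bot_iff, derivedSeries_succ, Subgroup.commutator_le]
  intro x hx y hy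
  rw [Subgroup.mem_bot, commutatorElement_eq_one_iff_mul_comm]
  exact h2 x (e2 hx) y (e2 hy)

end Pool.Agent.H452.VPP
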