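import Mathlib
import Pool.Agent.H452.VPP.Sol

/-!
# Continuum many soluble varieties with elements of unbounded finite order
-/

set_option autoImplicit false

namespace Pool.Agent.H452.VPP

open Pool.Agent.Helper429.PT
open Pool.Agent.Helper429.LF2 (WG WT GN GN_wrd GN_not_wrd GN_series wrd)

universe u

section

variable {p : ℕ} (Γ : ℕ → Type) [∀ n, Group (Γ n)] (v : ℕ → FF)

/-- the laws of the groups with index in `I` -/
def LI (p : ℕ) (I : Set ℕ) : Set FF := {w | ∀ n ∈ I, ∀ (φ : FF →* Kn Γ v p n), φ w = 1}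

/-- the finite groups in the given universe -/
def KU (p n : ℕ) : Type u := ULift.{u} (Kn Γ v p n)

noncomputable instance (p n : ℕ) : Group (KU.{u} Γ v p n) := inferInstanceAs (Group (ULift.{u} (Kn Γ v p n)))
instance (p n : ℕ) : TopologicalSpace (KU.{u} Γ v p n) := ⊥
instance (p n : ℕ) : DiscreteTopology (KU.{u} Γ v p n) := ⟨rfl⟩
instance (p n : ℕ) : IsTopologicalGroup (KU.{u} Γ v p n) where
  continuous_mul := continuous_of_discreteTopology
  continuous_inv := continuous_of_discreteTopology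

/-- the isomorphism with the finite group -/
noncomputable def ku (p n : ℕ) : KU.{u} Γ v p n ≃* Kn Γ v p n := MulEquiv.ulift

variable [∀ n, Finite (Γ n)]

lemma KU_mem (hp : p.Prime) (hc : ∀ n, ∃ k, Nat.card (Γ n) = p ^ k) {I : Set ℕ} {n : ℕ}
    (hn : n ∈ I) : (lawVariety hp (LI Γ v p I)).mem (KU.{u} Γ v p n) := by
  have hKf := Kn_finite Γ v hp n
  have hf : Finite (KU.{u} Γ v p n) := Finite.of_equiv _ (ku.{u} Γ v p n).symm.toEquiv
  refine ⟨isProP_of_finite hp ?_, ?_⟩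
  · obtain ⟨k, hk⟩ := Kn_card Γ v hp hc n
    exact ⟨k, by rw [Nat.card_congr (ku.{u} Γ v p n).toEquiv, hk]⟩
  · intro w hw φ
    have h1 := hw n hn ((ku.{u} Γ v p n).toMonoidHom.comp φ)
    exact (ku.{u} Γ v p n).injective (h1.trans (map_one _).symm)

variable {Γ v}

omit [∀ n, Finite (Γ n)] in
lemma vv_mem_of_notMem (h : ∀ n m, n ≠ m → ∀ φ : FF →* Γ m, φ (v n) = 1) {I : Set ℕ} {n : ℕ}
    (hn : n ∉ I) : vv v n ∈ LI Γ v p I := by
  intro m hm φ
  exact vv_law (h n m (fun e => hn (e ▸ hm))) φ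

lemma vv_pow_mem' (hp : p.Prime) (h : ∀ n m, n ≠ m → ∀ φ : FF →* Γ m, φ (v n) = 1) (I : Set ℕ)
    (n : ℕ) : ∃ E, 0 < E ∧ (vv v n) ^ E ∈ LI Γ v p I := by
  have hf := Kn_finite Γ v hp n
  refine ⟨Nat.card (Kn Γ v p n), Nat.card_pos, ?_⟩
  intro m _ φ
  by_cases hm : n = m
  · subst hm
    rw [map_pow, pow_card_eq_one']
  · rw [map_pow, vv_law (h n m hm), one_pow]

theorem unbounded (hp : p.Prime) (hc : ∀ n, ∃ k, Nat.card (Γ n) = p ^ k)
    (hlaw : ∀ n m, n ≠ m → ∀ φ : FF →* Γ m, φ (v n) = 1)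
    (hfail : ∀ n, ∃ φ : FF →* Γ n, φ (v n) ≠ 1) (I : Set ℕ) (hI : I.Infinite)
    (X F : Type u) [Nontrivial X] [Group F] [TopologicalSpace F] [IsTopologicalGroup F]
    (ι : X → F) (hι : IsFree (lawVariety hp (LI Γ v p I)) ι) (N : ℕ) :
    ∃ g : F, IsOfFinOrder g ∧ N < orderOf g := by
  classical
  obtain ⟨n, hnI, hNn⟩ := hI.exists_gt N
  obtain ⟨a, b, hab⟩ := exists_pair_ne X
  let φ0 : FF →* F := FreeGroup.lift (fun i => Nat.casesOn i (ι a) (fun _ => ι b))
  have hφ0 : φ0 (FreeGroup.of 0) = ι a := by simp [φ0]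
  have hφ1 : ∀ i, φ0 (FreeGroup.of (i + 1)) = ι b := by intro i; simp [φ0]
  obtain ⟨E, hE, hEm⟩ := vv_pow_mem' (Γ := Γ) (v := v) hp hlaw I n
  have hfin : IsOfFinOrder (φ0 (vv v n)) := by
    rw [isOfFinOrder_iff_pow_eq_one]
    refine ⟨E, hE, ?_⟩
    rw [← map_pow]
    exact hι.mem.2 _ hEm φ0
  refine ⟨φ0 (vv v n), hfin, ?_⟩
  have hmem := KU_mem.{u} Γ v hp hc hnI
  obtain ⟨x, y, hxy⟩ := vv_fail (p := p) hp (hfail n)
  let f : X → KU.{u} Γ v p n := fun t => if t = a then (ku.{u} Γ v p n).symm x else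
    if t = b then (ku.{u} Γ v p n).symm y else 1
  have hf : Filter.Tendsto f Filter.cofinite (nhds 1) := by
    rw [nhds_discrete, Filter.tendsto_pure, Filter.eventually_cofinite]
    apply (Set.toFinite {a, b}).subset
    intro t ht
    by_contra hcon
    simp only [Set.mem_insert_iff, Set.mem_singleton_iff, not_or] at hcon
    apply ht
    simp only [f, if_neg hcon.1, if_neg hcon.2]
  obtain ⟨Φ, hΦ, _⟩ := hι.lift _ hmem f hf
  have ha : Φ (ι a) = (ku.{u} Γ v p n).symm x := by rw [hΦ a]; simp [f]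
  have hb : Φ (ι b) = (ku.{u} Γ v p n).symm y := by rw [hΦ b]; simp [f, hab.symm]
  let Ψ : F →* Kn Γ v p n := (ku.{u} Γ v p n).toMonoidHom.comp (Φ : F →* _)
  have hΨa : Ψ (ι a) = x := by
    show (ku.{u} Γ v p n) (Φ (ι a)) = x
    rw [ha]; exact (ku.{u} Γ v p n).apply_symm_apply x
  have hΨb : Ψ (ι b) = y := by
    show (ku.{u} Γ v p n) (Φ (ι b)) = y
    rw [hb]; exact (ku.{u} Γ v p n).apply_symm_apply y
  have h1 := hxy (Ψ.comp φ0) (by rw [MonoidHom.comp_apply, hφ0, hΨa])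
    (fun i => by rw [MonoidHom.comp_apply, hφ1, hΨb]) (orderOf (φ0 (vv v n))) (by
      rw [MonoidHom.comp_apply, ← map_pow, pow_orderOf_eq_one, map_one])
  have h2 : 0 < orderOf (φ0 (vv v n)) := hfin.orderOf_pos
  have h3 := Nat.le_of_dvd (by omega) h1
  have h4 : 2 ^ (n + 2) ≤ p ^ (n + 2) := Nat.pow_le_pow_left hp.two_le _
  have h5 : n < 2 ^ n := Nat.lt_two_pow_self
  have h6 : 2 ^ (n + 2) = 2 * (2 * 2 ^ n) := by ring
  omega

/-- the varieties of different sets are different -/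
theorem ne_of_mem (hp : p.Prime) (hc : ∀ n, ∃ k, Nat.card (Γ n) = p ^ k)
    (hlaw : ∀ n m, n ≠ m → ∀ φ : FF →* Γ m, φ (v n) = 1)
    (hfail : ∀ n, ∃ φ : FF →* Γ n, φ (v n) ≠ 1) {I J : Set ℕ} {n : ℕ} (hI : n ∈ I) (hJ : n ∉ J) :
    lawVariety.{u} hp (LI Γ v p I) ≠ lawVariety.{u} hp (LI Γ v p J) := by
  intro heq
  have hmem := KU_mem.{u} Γ v hp hc hI
  rw [heq] at hmem
  obtain ⟨x, y, hxy⟩ := vv_fail (p := p) hp (hfail n)
  let φ : FF →* Kn Γ v p n := FreeGroup.lift (fun i => Nat.casesOn i x (fun _ => y))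
  have h1 := hxy φ (by simp [φ]) (fun i => by simp [φ]) 1 (by
    have h2 := hmem.2 _ (vv_mem_of_notMem (p := p) hlaw hJ)
      ((ku.{u} Γ v p n).symm.toMonoidHom.comp φ)
    have h3 : (ku.{u} Γ v p n).symm (φ (vv v n)) = 1 := h2
    rw [pow_one]
    exact (map_eq_one_iff _ (ku.{u} Γ v p n).symm.injective).mp h3)
  have h3 := Nat.le_of_dvd (by omega) h1
  have h4 : 2 ^ (n + 2) ≤ p ^ (n + 2) := Nat.pow_le_pow_left hp.two_le _
  have h5 : n < 2 ^ n := Nat.lt_two_pow_self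
  have h6 : 2 ^ (n + 2) = 2 * (2 * 2 ^ n) := by ring
  omega

/-- solubility of the groups of the variety -/
theorem soluble (hp : p.Prime) (hΓ : ∀ n, derivedSeries (Γ n) 3 = ⊥) (I : Set ℕ)
    (G : Type u) [Group G] [TopologicalSpace G] [IsTopologicalGroup G]
    (hG : (lawVariety hp (LI Γ v p I)).mem G) : derivedSeries G 5 = ⊥ := by
  have hK : ∀ n, derivedSeries (Kn Γ v p n) 5 = ⊥ := by
    intro n
    have h1 : derivedSeries (DD (p ^ (n + 2)) (Γ n)) (3 + 1) = ⊥ :=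
      wr_derived comm_derived (hΓ n)
    exact wr_derived (a := 3 + 1) (b := 1) h1 comm_derived
  have hL : ∀ w ∈ derivedSeries FF 5, w ∈ LI Γ v p I := by
    intro w hw n _ φ
    have h1 := map_derivedSeries_le_derivedSeries φ 5 (Subgroup.mem_map_of_mem φ hw)
    rw [hK] at h1
    exact h1
  rw [eq_bot_iff]
  intro g hg
  obtain ⟨φ, w, hw, rfl⟩ := exists_word G 5 g hg
  exact hG.2 w (hL w hw) φ

end

/-- the index set of a set -/
def Ix2 (A : Set ℕ) : Set ℕ := {n | n % 2 = 1 ∨ n / 2 ∈ A}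

lemma Ix2_infinite (A : Set ℕ) : (Ix2 A).Infinite := by
  refine Set.infinite_of_injective_forall_mem (f := fun n : ℕ => 2 * n + 1) ?_ ?_
  · intro a b h
    simpa using h
  · intro n
    left
    show (2 * n + 1) % 2 = 1
    omega

theorem family (p : ℕ) (hp : p.Prime) : ∃ V : Set ℕ → Variety.{u} p, Function.Injective V ∧
    ∀ A : Set ℕ,
      (∀ (G : Type u) [Group G] [TopologicalSpace G] [IsTopologicalGroup G],
        (V A).mem G → derivedSeries G 5 = ⊥) ∧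
      (∀ X : Type u, ∃ (F : Type u) (_ : Group F) (_ : TopologicalSpace F)
        (_ : IsTopologicalGroup F) (ι : X → F), IsFree (V A) ι) ∧
      ∀ (X F : Type u) [Nontrivial X] [Group F] [TopologicalSpace F] [IsTopologicalGroup F]
        (ι : X → F), IsFree (V A) ι → ∀ N : ℕ, ∃ g : F, IsOfFinOrder g ∧ N < orderOf g := by
  have : Fact p.Prime := ⟨hp⟩
  have hf : ∀ n, Finite (GN p (n + 2)) := fun n => by
    have := WG_finite p (n + 2) hp
    infer_instance
  have hc : ∀ n, ∃ k, Nat.card (GN p (n + 2)) = p ^ k := fun n => GN_card p (n + 2)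
  have hlaw : ∀ n m, n ≠ m → ∀ φ : FF →* GN p (m + 2), φ (wrd p (n + 1)) = 1 :=
    fun n m h φ => GN_wrd (by omega) φ
  have hfail : ∀ n, ∃ φ : FF →* GN p (n + 2), φ (wrd p (n + 1)) ≠ 1 :=
    fun n => GN_not_wrd (by omega)
  refine ⟨fun A => lawVariety hp (LI (fun n => GN p (n + 2)) (fun n => wrd p (n + 1)) p (Ix2 A)),
    ?_, fun A => ⟨?_, fun X => ⟨_, _, _, _, _, exists_free hp _ X⟩, ?_⟩⟩
  · intro A B hAB
    by_contra hne
    have hex : ∃ n, ¬ (n ∈ A ↔ n ∈ B) := by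
      by_contra hcon
      push Not at hcon
      exact hne (Set.ext hcon)
    obtain ⟨n, hn⟩ := hex
    have hmem : ∀ C : Set ℕ, 2 * n ∈ Ix2 C ↔ n ∈ C := by
      intro C
      show ((2 * n) % 2 = 1 ∨ (2 * n) / 2 ∈ C) ↔ n ∈ C
      have h1 : ¬ (2 * n) % 2 = 1 := by omega
      have h2 : (2 * n) / 2 = n := by omega
      rw [h2]
      exact ⟨fun h => h.resolve_left h1, Or.inr⟩
    by_cases hA : n ∈ A
    · have hB : n ∉ B := fun h => hn ⟨fun _ => h, fun _ => hA⟩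
      exact ne_of_mem.{u} hp hc hlaw hfail ((hmem A).mpr hA) (fun h => hB ((hmem B).mp h)) hAB
    · have hB : n ∈ B := by
        by_contra h
        exact hn ⟨fun h' => absurd h' hA, fun h' => absurd h' h⟩
      exact ne_of_mem.{u} hp hc hlaw hfail ((hmem B).mpr hB) (fun h => hA ((hmem A).mp h))
        hAB.symm
  · intro G _ _ _ hG
    exact soluble hp (fun n => GN_derived p (n + 2)) (Ix2 A) G hG
  · intro X F _ _ _ _ ι hι N
    exact unbounded hp hc hlaw hfail (Ix2 A) (Ix2_infinite A) X F ι hι N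

end Pool.Agent.H452.VPP
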